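import Mathlib

set_option autoImplicit false

/-!
A colouring of `F_p ^ N` by the largest Fourier coefficient.
-/

namespace Pool.Agent.Hhelper44.GrowK

open Finset

theorem conj_std {N : ℕ} [NeZero N] (a : ZMod N) :
    (starRingEnd ℂ) (ZMod.stdAddChar a) = ZMod.stdAddChar (-a) := by
  rw [ZMod.stdAddChar_apply, ZMod.stdAddChar_apply, AddChar.map_neg_eq_inv,
    Circle.coe_inv_eq_conj]

theorem norm_std {N : ℕ} [NeZero N] (a : ZMod N) : ‖(ZMod.stdAddChar a : ℂ)‖ = 1 := by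
  rw [ZMod.stdAddChar_apply, Circle.norm_coe]

/-- The Fourier coefficients of a function on `ZMod N`. -/
noncomputable def four {N : ℕ} [NeZero N] (g : ZMod N → ℂ) (j : ZMod N) : ℂ :=
  ∑ i, g i * ZMod.stdAddChar (i * j)

theorem parseval {N : ℕ} [NeZero N] (g : ZMod N → ℂ) :
    ∑ j, ‖four g j‖ ^ 2 = N * ∑ i, ‖g i‖ ^ 2 := by
  have h1 : ∀ j, ((‖four g j‖ ^ 2 : ℝ) : ℂ) =
      ∑ i, ∑ i', g i * (starRingEnd ℂ) (g i') * ZMod.stdAddChar (j * (i - i')) := by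
    intro j
    rw [Complex.ofReal_pow, ← Complex.mul_conj', four, map_sum, Finset.sum_mul_sum]
    refine Finset.sum_congr rfl fun i _ => Finset.sum_congr rfl fun i' _ => ?_
    have h : j * (i - i') = i * j + -(i' * j) := by ring
    rw [map_mul (starRingEnd ℂ), conj_std, h, AddChar.map_add_eq_mul]
    ring
  have h2 : ((∑ j, ‖four g j‖ ^ 2 : ℝ) : ℂ) = ((N * ∑ i, ‖g i‖ ^ 2 : ℝ) : ℂ) := by
    rw [Complex.ofReal_sum, Finset.sum_congr rfl fun j _ => h1 j, Finset.sum_comm]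
    rw [Complex.ofReal_mul, Complex.ofReal_sum, Finset.mul_sum]
    refine Finset.sum_congr rfl fun i _ => ?_
    rw [Finset.sum_comm]
    have h3 : ∀ i', ∑ j, g i * (starRingEnd ℂ) (g i') * ZMod.stdAddChar (j * (i - i')) =
        if i' = i then (N : ℂ) * (‖g i‖ ^ 2 : ℝ) else 0 := by
      intro i'
      rw [← Finset.mul_sum, AddChar.sum_mulShift _ (ZMod.isPrimitive_stdAddChar N), ZMod.card]
      by_cases h : i' = i
      · subst h
        rw [sub_self, if_pos rfl, if_pos rfl, Complex.mul_conj', Complex.ofReal_pow, mul_comm]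
      · have h' : ¬ i - i' = 0 := by
          rw [sub_eq_zero]
          exact fun e => h e.symm
        rw [if_neg h', if_neg h, Nat.cast_zero, mul_zero]
    rw [Finset.sum_congr rfl fun i' _ => h3 i', Finset.sum_ite_eq' Finset.univ i]
    simp
  exact_mod_cast h2

/-- Some Fourier coefficient of a unimodular function has modulus at least the square root of the
length. -/
theorem exists_large {N : ℕ} [NeZero N] (g : ZMod N → ℂ) (hg : ∀ i, ‖g i‖ = 1) :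
    ∃ j, (N : ℝ) ≤ ‖four g j‖ ^ 2 := by
  by_contra hcon
  push Not at hcon
  have h1 := parseval g
  have h2 : ∑ i, ‖g i‖ ^ 2 = N := by
    rw [Finset.sum_congr rfl fun i _ => by rw [hg i, one_pow]]
    simp [ZMod.card]
  have h3 : ∑ j, ‖four g j‖ ^ 2 < ∑ _j : ZMod N, (N : ℝ) :=
    Finset.sum_lt_sum_of_nonempty Finset.univ_nonempty fun j _ => hcon j
  rw [h1, h2, Finset.sum_const, Finset.card_univ, ZMod.card, nsmul_eq_mul] at h3
  exact lt_irrefl _ h3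

/-- Changing at most `m` entries of `ω g` moves a Fourier coefficient by at most `m ‖1 - ω‖`. -/
theorem four_near {N : ℕ} [NeZero N] (ω : ℂ) (g g' : ZMod N → ℂ) (hg : ∀ i, ‖g i‖ = 1)
    (A : Finset (ZMod N)) (h0 : ∀ i ∈ A, g' i = g i) (h1 : ∀ i, i ∉ A → g' i = ω * g i)
    (j : ZMod N) : ‖four g' j - ω * four g j‖ ≤ A.card * ‖1 - ω‖ := by
  have h : four g' j - ω * four g j = ∑ i ∈ A, (1 - ω) * (g i * ZMod.stdAddChar (i * j)) := by
    rw [four, four, Finset.mul_sum, ← Finset.sum_sub_distrib]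
    symm
    apply Finset.sum_subset_zero_on_sdiff (Finset.subset_univ A)
    · intro i hi
      rw [Finset.mem_sdiff] at hi
      rw [h1 i hi.2]
      ring
    · intro i hi
      rw [h0 i hi]
      ring
  rw [h]
  refine (norm_sum_le _ _).trans ?_
  rw [Finset.sum_congr rfl fun i _ => by
    rw [norm_mul, norm_mul, hg, norm_std, mul_one, mul_one]]
  rw [Finset.sum_const, nsmul_eq_mul]

/-- Two complex numbers with close directions are not nearly opposite after rotation. -/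
theorem dir_ne (ω a b : ℂ) (hω : ‖ω‖ = 1) (hω1 : ω ≠ 1) (m : ℝ) (hm : 0 ≤ m)
    (ha : 4 * m < ‖a‖) (hb : 4 * m < ‖b‖) (hab : ‖b - ω * a‖ ≤ m * ‖1 - ω‖) (c : ℂ)
    (h1 : ‖a / ‖a‖ - c‖ < ‖1 - ω‖ / 4) (h2 : ‖b / ‖b‖ - c‖ < ‖1 - ω‖ / 4) : False := by
  have ha0 : 0 < ‖a‖ := by linarith
  have hb0 : 0 < ‖b‖ := by linarith
  have hδ : 0 < ‖1 - ω‖ := norm_pos_iff.mpr (sub_ne_zero.mpr (Ne.symm hω1))
  -- the two directions `ω a / |a|` and `b / |b|`
  have h3 : ‖b / ‖b‖ - ω * (a / ‖a‖)‖ ≤ 2 * ‖b - ω * a‖ / ‖a‖ := by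
    have e : b / ‖b‖ - ω * (a / ‖a‖) = (b - ω * a) / ‖a‖ + b * (1 / ‖b‖ - 1 / ‖a‖) := by
      have : (‖a‖ : ℂ) ≠ 0 := by exact_mod_cast ha0.ne'
      have : (‖b‖ : ℂ) ≠ 0 := by exact_mod_cast hb0.ne'
      field_simp
      ring
    have e1 : ‖(b - ω * a) / (‖a‖ : ℂ)‖ = ‖b - ω * a‖ / ‖a‖ := by
      rw [norm_div, Complex.norm_real, norm_norm]
    have e2 : ‖b * (1 / (‖b‖ : ℂ) - 1 / (‖a‖ : ℂ))‖ ≤ ‖b - ω * a‖ / ‖a‖ := by
      have e3 : (1 / (‖b‖ : ℂ) - 1 / (‖a‖ : ℂ)) = (((‖a‖ - ‖b‖) / (‖b‖ * ‖a‖) : ℝ) : ℂ) := by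
        have : (‖a‖ : ℂ) ≠ 0 := by exact_mod_cast ha0.ne'
        have : (‖b‖ : ℂ) ≠ 0 := by exact_mod_cast hb0.ne'
        push_cast
        field_simp
      rw [e3, norm_mul, Complex.norm_real, Real.norm_eq_abs, abs_div,
        abs_of_pos (mul_pos hb0 ha0)]
      have e4 : |‖a‖ - ‖b‖| ≤ ‖b - ω * a‖ := by
        have : ‖ω * a‖ = ‖a‖ := by rw [norm_mul, hω, one_mul]
        rw [← this, norm_sub_rev]
        exact abs_norm_sub_norm_le _ _
      have e5 : ‖b‖ * (|‖a‖ - ‖b‖| / (‖b‖ * ‖a‖)) = |‖a‖ - ‖b‖| / ‖a‖ := by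
        field_simp
      rw [e5]
      gcongr
    rw [e]
    refine (norm_add_le _ _).trans ?_
    rw [e1]
    have : 2 * ‖b - ω * a‖ / ‖a‖ = ‖b - ω * a‖ / ‖a‖ + ‖b - ω * a‖ / ‖a‖ := by ring
    rw [this]
    gcongr
  have h4 : 2 * ‖b - ω * a‖ / ‖a‖ ≤ ‖1 - ω‖ / 2 := by
    rw [div_le_iff₀ ha0]
    nlinarith
  have h5 : ‖a / ‖a‖‖ = 1 := by
    rw [norm_div, Complex.norm_real, norm_norm, div_self ha0.ne']
  have h6 : ‖1 - ω‖ = ‖a / ‖a‖ - ω * (a / ‖a‖)‖ := by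
    have : a / ‖a‖ - ω * (a / ‖a‖) = (1 - ω) * (a / ‖a‖) := by ring
    rw [this, norm_mul, h5, mul_one]
  have h7 : a / ‖a‖ - ω * (a / ‖a‖) =
      (a / ‖a‖ - c) - (b / ‖b‖ - c) + (b / ‖b‖ - ω * (a / ‖a‖)) := by ring
  have h8 : ‖1 - ω‖ ≤ ‖a / ‖a‖ - c‖ + ‖b / ‖b‖ - c‖ + ‖b / ‖b‖ - ω * (a / ‖a‖)‖ := by
    rw [h6, h7]
    exact (norm_add_le _ _).trans (add_le_add_left (norm_sub_le _ _) _)
  linarith

/-- The colouring by the largest Fourier coefficient and its direction. -/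
theorem exists_col (p : ℕ) [Fact p.Prime] : ∃ q : ℕ, ∀ (m N : ℕ) [NeZero N], 16 * m ^ 2 < N →
    ∃ f : (ZMod N → ZMod p) → Fin (q * N), ∀ (x y : ZMod N → ZMod p) (A : Finset (ZMod N)),
      A.card ≤ m → (∀ i ∈ A, y i = x i) → (∀ i, i ∉ A → y i = x i + 1) → f x ≠ f y := by
  classical
  set ω : ℂ := ZMod.stdAddChar (1 : ZMod p) with hω
  have hω1 : ω ≠ 1 := by
    intro h
    have h0 : (ZMod.stdAddChar (1 : ZMod p) : ℂ) = ZMod.stdAddChar (0 : ZMod p) := by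
      rw [← hω, h, AddChar.map_zero_eq_one]
    exact one_ne_zero (ZMod.injective_stdAddChar h0)
  have hδ : 0 < ‖1 - ω‖ / 4 := by
    have : 0 < ‖1 - ω‖ := norm_pos_iff.mpr (sub_ne_zero.mpr (Ne.symm hω1))
    linarith
  obtain ⟨t, -, ht, htc⟩ := (isCompact_sphere (0 : ℂ) 1).finite_cover_balls hδ
  have hnet : ∀ u : ℂ, ‖u‖ = 1 → ∃ c : ht.toFinset, ‖u - c‖ < ‖1 - ω‖ / 4 := by
    intro u hu
    have h1 := htc (mem_sphere_zero_iff_norm.mpr hu)
    simp only [Set.mem_iUnion] at h1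
    obtain ⟨c, hc, hc'⟩ := h1
    refine ⟨⟨c, ht.mem_toFinset.mpr hc⟩, ?_⟩
    rw [Metric.mem_ball, dist_eq_norm] at hc'
    exact hc'
  refine ⟨ht.toFinset.card, fun m N _ hN => ?_⟩
  have hmN : ∀ r : ℝ, 0 ≤ r → (N : ℝ) ≤ r ^ 2 → 4 * (m : ℝ) < r := by
    intro r hr h
    have h1 : (16 * (m : ℝ) ^ 2) < N := by exact_mod_cast hN
    by_contra hcon
    push Not at hcon
    nlinarith
  set g : (ZMod N → ZMod p) → ZMod N → ℂ := fun x i => ZMod.stdAddChar (x i) with hg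
  have hg1 : ∀ x i, ‖g x i‖ = 1 := fun x i => norm_std _
  have hj : ∀ x, ∃ j, (N : ℝ) ≤ ‖four (g x) j‖ ^ 2 := fun x => exists_large (g x) (hg1 x)
  choose j hj using hj
  have hbig : ∀ x, 4 * (m : ℝ) < ‖four (g x) (j x)‖ := fun x => hmN _ (norm_nonneg _) (hj x)
  have hc : ∀ x, ∃ c : ht.toFinset,
      ‖four (g x) (j x) / ‖four (g x) (j x)‖ - c‖ < ‖1 - ω‖ / 4 := by
    intro x
    apply hnet
    have h1 : 0 < ‖four (g x) (j x)‖ := by
      have := hbig x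
      have : (0 : ℝ) ≤ m := Nat.cast_nonneg m
      linarith
    rw [norm_div, Complex.norm_real, norm_norm, div_self h1.ne']
  choose c hc using hc
  have hcard : Fintype.card (ht.toFinset × ZMod N) = ht.toFinset.card * N := by
    rw [Fintype.card_prod, Fintype.card_coe, ZMod.card]
  refine ⟨fun x => Fintype.equivFinOfCardEq hcard (c x, j x), fun x y A hA h0 h1 hxy => ?_⟩
  have h2 : (c x, j x) = (c y, j y) := (Fintype.equivFinOfCardEq hcard).injective hxy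
  rw [Prod.mk.injEq] at h2
  obtain ⟨hcc, hjj⟩ := h2
  have h3 : ‖four (g y) (j x) - ω * four (g x) (j x)‖ ≤ A.card * ‖1 - ω‖ := by
    refine four_near ω (g x) (g y) (hg1 x) A (fun i hi => ?_) (fun i hi => ?_) (j x)
    · simp only [hg]
      rw [h0 i hi]
    · simp only [hg]
      rw [h1 i hi, AddChar.map_add_eq_mul, mul_comm]
  have h4 : ‖four (g y) (j x) - ω * four (g x) (j x)‖ ≤ m * ‖1 - ω‖ := by
    refine h3.trans ?_
    have : (A.card : ℝ) ≤ m := by exact_mod_cast hA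
    gcongr
  have h5 := hc y
  rw [← hcc, ← hjj] at h5
  have h6 := hbig y
  rw [← hjj] at h6
  exact dir_ne ω (four (g x) (j x)) (four (g y) (j x)) (norm_std _) hω1 m (Nat.cast_nonneg m)
    (hbig x) h6 h4 (c x) (hc x) h5

end Pool.Agent.Hhelper44.GrowK
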