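import Mathlib

set_option autoImplicit false

/-!
Polynomials of small total degree in `K` unknown functions vanish simultaneously at a `0`-`1` vector
with few zeros (combinatorial Nullstellensatz).
-/

namespace Pool.Agent.Hhelper44.GrowK

open MvPolynomial Finset

variable {σ : Type*} {R : Type*} [CommRing R]

/-- The exponent with value `1` on `D` and `0` elsewhere. -/
noncomputable def ex (D : Finset σ) : σ →₀ ℕ := ∑ i ∈ D, Finsupp.single i 1

theorem ex_apply [DecidableEq σ] (D : Finset σ) (i : σ) : ex D i = if i ∈ D then 1 else 0 := by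
  unfold ex
  rw [Finsupp.finsetSum_apply]
  simp [Finsupp.single_apply]

theorem ex_degree (D : Finset σ) : (ex D).degree = D.card := by
  classical
  unfold ex
  rw [map_sum]
  simp

theorem ex_sum (D : Finset σ) : ∑ i ∈ (ex D).support, ex D i = D.card := by
  rw [← Finsupp.degree_apply, ex_degree]

theorem prod_deg [Nontrivial R] (D : Finset σ) :
    (∏ i ∈ D, (1 - X i) : MvPolynomial σ R).totalDegree ≤ D.card := by
  refine (totalDegree_finsetProd _ _).trans ?_
  refine (Finset.sum_le_card_nsmul _ _ 1 fun i _ => ?_).trans (by simp)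
  refine (totalDegree_sub _ _).trans ?_
  simp

theorem prod_coeff [Nontrivial R] (D : Finset σ) :
    coeff (ex D) (∏ i ∈ D, (1 - X i) : MvPolynomial σ R) = (-1) ^ D.card := by
  classical
  induction D using Finset.induction_on with
  | empty => simp [ex]
  | insert a D ha ih =>
    have h1 : ex (insert a D) = Finsupp.single a 1 + ex D := by
      unfold ex
      rw [Finset.sum_insert ha]
    have h2 : coeff (ex (insert a D)) (∏ i ∈ D, (1 - X i) : MvPolynomial σ R) = 0 := by
      apply coeff_eq_zero_of_totalDegree_lt
      rw [ex_sum, Finset.card_insert_of_notMem ha]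
      exact Nat.lt_succ_of_le (prod_deg D)
    rw [Finset.prod_insert ha, sub_mul, one_mul, coeff_sub, h2, h1, coeff_X_mul, ih,
      Finset.card_insert_of_notMem ha, pow_succ]
    ring

/-- The `0`-`1` vector whose zeros are the elements of `D`. -/
def vec {n p : ℕ} (D : Finset (Fin n)) : Fin n → ZMod p := fun i => if i ∈ D then 0 else 1

theorem exists_more {p n : ℕ} [Fact p.Prime] (K : ℕ)
    (P : Fin K → MvPolynomial (Fin n) (ZMod p))
    (D : Finset (Fin n)) (hD : (∑ j, (P j).totalDegree) * (p - 1) < D.card)
    (h0 : ∀ j, eval (vec D) (P j) = 0) :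
    ∃ D' : Finset (Fin n), D'.card < D.card ∧ ∀ j, eval (vec D') (P j) = 0 := by
  classical
  have hp1 : 0 < p - 1 := by
    have := (Fact.out : p.Prime).two_le
    omega
  set G : MvPolynomial (Fin n) (ZMod p) := ∏ j, (1 - (P j) ^ (p - 1)) with hG
  have hGd : G.totalDegree ≤ (∑ j, (P j).totalDegree) * (p - 1) := by
    refine (totalDegree_finsetProd _ _).trans ?_
    rw [Finset.sum_mul]
    refine Finset.sum_le_sum fun j _ => ?_
    refine (totalDegree_sub _ _).trans ?_
    rw [totalDegree_one, Nat.zero_max]
    refine (totalDegree_pow _ _).trans ?_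
    rw [Nat.mul_comm]
  set f : MvPolynomial (Fin n) (ZMod p) := G - ∏ i ∈ D, (1 - X i) with hf
  have hc : coeff (ex D) f = -(-1) ^ D.card := by
    rw [hf, coeff_sub, prod_coeff, coeff_eq_zero_of_totalDegree_lt, zero_sub]
    rw [ex_sum]
    exact lt_of_le_of_lt hGd hD
  have hc0 : coeff (ex D) f ≠ 0 := by
    rw [hc]
    exact neg_ne_zero.mpr (pow_ne_zero _ (neg_ne_zero.mpr one_ne_zero))
  have hfd : f.totalDegree = (ex D).degree := by
    apply le_antisymm
    · rw [ex_degree]
      refine (totalDegree_sub _ _).trans (max_le ?_ (prod_deg D))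
      exact hGd.trans hD.le
    · rw [Finsupp.degree_apply]
      exact le_totalDegree (mem_support_iff.mpr hc0)
  obtain ⟨s, hs, hs'⟩ := combinatorial_nullstellensatz_exists_eval_nonzero f (ex D) hc0 hfd
    (fun i => if i ∈ D then {0, 1} else {1}) (fun i => by
      rw [ex_apply]
      by_cases hi : i ∈ D
      · simp [hi]
      · simp [hi])
  have hGe : ∀ v : Fin n → ZMod p, eval v G = if ∀ j, eval v (P j) = 0 then 1 else 0 := by
    intro v
    rw [hG, map_prod]
    split_ifs with h
    · apply Finset.prod_eq_one
      intro j _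
      rw [map_sub, map_one, map_pow, h j, zero_pow hp1.ne', sub_zero]
    · push Not at h
      obtain ⟨j, hj⟩ := h
      apply Finset.prod_eq_zero (Finset.mem_univ j)
      rw [map_sub, map_one, map_pow, ZMod.pow_card_sub_one_eq_one hj, sub_self]
  have hse : s = vec (D.filter fun i => s i = 0) := by
    funext i
    have h1 := hs i
    unfold vec
    by_cases hi : i ∈ D
    · simp only [hi, if_true, Finset.mem_insert, Finset.mem_singleton] at h1
      rcases h1 with h1 | h1
      · simp [hi, h1]
      · simp [h1]
    · simp only [hi, if_false, Finset.mem_singleton] at h1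
      simp [hi, h1]
  have hPe : eval s (∏ i ∈ D, (1 - X i) : MvPolynomial (Fin n) (ZMod p)) =
      if (D.filter fun i => s i = 0) = D then 1 else 0 := by
    rw [map_prod]
    split_ifs with h
    · apply Finset.prod_eq_one
      intro i hi
      rw [← h, Finset.mem_filter] at hi
      rw [map_sub, map_one, eval_X, hi.2, sub_zero]
    · have h2 : ∃ i ∈ D, s i ≠ 0 := by
        by_contra hcon
        push Not at hcon
        exact h (Finset.filter_true_of_mem hcon)
      obtain ⟨i, hi, hi0⟩ := h2
      apply Finset.prod_eq_zero hi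
      have h1 := hs i
      simp only [hi, if_true, Finset.mem_insert, Finset.mem_singleton] at h1
      rcases h1 with h1 | h1
      · exact absurd h1 hi0
      · rw [map_sub, map_one, eval_X, h1, sub_self]
  have hne : (D.filter fun i => s i = 0) ≠ D := by
    intro h
    apply hs'
    rw [hf, map_sub, hPe, if_pos h, hGe, if_pos, sub_self]
    rw [hse, h]
    exact h0
  refine ⟨D.filter fun i => s i = 0, ?_, ?_⟩
  · exact Finset.card_lt_card ((Finset.filter_subset _ _).ssubset_of_ne hne)
  · rw [← hse]
    by_contra hcon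
    apply hs'
    rw [hf, map_sub, hPe, if_neg hne, hGe, if_neg hcon, sub_zero]

/-- Polynomials without constant term, with `(sum of degrees) * (p - 1) ≤ m`, have a common zero
among the `0`-`1` vectors with at most `m` zeros. -/
theorem exists_zero {p n : ℕ} [Fact p.Prime] (K m : ℕ)
    (P : Fin K → MvPolynomial (Fin n) (ZMod p))
    (hm : (∑ j, (P j).totalDegree) * (p - 1) ≤ m)
    (h0 : ∀ j, eval (0 : Fin n → ZMod p) (P j) = 0) :
    ∃ D : Finset (Fin n), D.card ≤ m ∧ ∀ j, eval (vec D) (P j) = 0 := by
  classical
  have key : ∀ k, ∀ D : Finset (Fin n), D.card = k → (∀ j, eval (vec D) (P j) = 0) →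
      ∃ D : Finset (Fin n), D.card ≤ m ∧ ∀ j, eval (vec D) (P j) = 0 := by
    intro k
    induction k using Nat.strong_induction_on with
    | _ k ih =>
      intro D hDk hD
      by_cases h : D.card ≤ m
      · exact ⟨D, h, hD⟩
      · obtain ⟨D', h1, h2⟩ := exists_more K P D (by omega) hD
        exact ih D'.card (hDk ▸ h1) D' rfl h2
  refine key _ Finset.univ rfl fun j => ?_
  have : (vec Finset.univ : Fin n → ZMod p) = 0 := by
    funext i
    simp [vec]
  rw [this]
  exact h0 j

/-- The sum of the variables in the `k`-th block of length `p - 1`. -/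
noncomputable def lin (n p k : ℕ) : MvPolynomial (Fin n) (ZMod p) :=
  ∑ i ∈ Finset.univ.filter (fun i : Fin n => i.val / (p - 1) = k), X i

theorem lin_hom (n p k : ℕ) : (lin n p k).IsHomogeneous 1 := by
  unfold lin
  exact IsHomogeneous.sum _ _ _ fun i _ => isHomogeneous_X _ i

theorem block_card {n p k : ℕ} (hp : 0 < p - 1) (hk : (k + 1) * (p - 1) ≤ n) :
    (Finset.univ.filter (fun i : Fin n => i.val / (p - 1) = k)).card = p - 1 := by
  have h : (Finset.univ.filter (fun i : Fin n => i.val / (p - 1) = k)).map Fin.valEmbedding =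
      Finset.Ico (k * (p - 1)) ((k + 1) * (p - 1)) := by
    ext a
    simp only [Finset.mem_map, Finset.mem_filter, Finset.mem_univ, true_and, Fin.valEmbedding_apply,
      Finset.mem_Ico]
    constructor
    · rintro ⟨i, hi, rfl⟩
      rw [Nat.div_eq_iff hp] at hi
      rw [Nat.add_mul, Nat.one_mul]
      omega
    · rintro ⟨h1, h2⟩
      refine ⟨⟨a, by omega⟩, ?_, rfl⟩
      rw [Nat.div_eq_iff hp]
      rw [Nat.add_mul, Nat.one_mul] at h2
      simp only
      omega
  rw [← Finset.card_map Fin.valEmbedding, h, Nat.card_Ico, Nat.add_mul, Nat.one_mul]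
  omega

theorem lin_vec {n p k : ℕ} [Fact p.Prime] (hk : (k + 1) * (p - 1) ≤ n) (D : Finset (Fin n))
    (h : eval (vec D) (lin n p k) = 0) :
    Finset.univ.filter (fun i : Fin n => i.val / (p - 1) = k) ⊆ D := by
  classical
  have hp2 := (Fact.out : p.Prime).two_le
  set B := Finset.univ.filter (fun i : Fin n => i.val / (p - 1) = k) with hB
  have hBc : B.card = p - 1 := block_card (by omega) hk
  have h1 : eval (vec D) (lin n p k) = ((B.filter (fun i => i ∉ D)).card : ZMod p) := by
    unfold lin
    rw [map_sum, ← hB, Finset.card_filter, Nat.cast_sum]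
    refine Finset.sum_congr rfl fun i _ => ?_
    rw [eval_X, vec]
    by_cases hi : i ∈ D
    · simp [hi]
    · simp [hi]
  rw [h1, ZMod.natCast_eq_zero_iff] at h
  have h2 : (B.filter (fun i => i ∉ D)).card = 0 := by
    apply Nat.eq_zero_of_dvd_of_lt h
    have := Finset.card_filter_le B (fun i => i ∉ D)
    omega
  intro i hi
  by_contra hcon
  have : i ∈ B.filter (fun i => i ∉ D) := Finset.mem_filter.mpr ⟨hi, hcon⟩
  rw [Finset.card_eq_zero] at h2
  rw [h2] at this
  exact absurd this (Finset.notMem_empty i)

/-- `K` anisotropic quadratic forms cover the vectors with fewer than `2 K (p - 1)` zeros. -/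
theorem exists_cover {p n e K : ℕ} [Fact p.Prime] (hp : 3 ≤ p) (hn : (e + 1) * (p - 1) ≤ n)
    (hK : e < 2 * K) :
    ∃ P : Fin K → MvPolynomial (Fin n) (ZMod p), (∀ j, (P j).IsHomogeneous 2) ∧
      ∀ D : Finset (Fin n), D.card ≤ e * (p - 1) → ∃ j, eval (vec D) (P j) ≠ 0 := by
  classical
  obtain ⟨ν, hν⟩ := FiniteField.exists_nonsquare (F := ZMod p) (by
    rw [ZMod.ringChar_zmod_n]
    omega)
  refine ⟨fun j => (lin n p (2 * j.val)) ^ 2 - C ν * (lin n p (2 * j.val + 1)) ^ 2, ?_, ?_⟩
  · intro j
    apply IsHomogeneous.sub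
    · exact (lin_hom n p _).pow 2
    · have := (isHomogeneous_C (Fin n) ν).mul ((lin_hom n p (2 * j.val + 1)).pow 2)
      rwa [zero_add, one_mul] at this
  · intro D hD
    by_contra hcon
    push Not at hcon
    have h1 : ∀ j : Fin K, eval (vec D) (lin n p (2 * j.val)) = 0 ∧
        eval (vec D) (lin n p (2 * j.val + 1)) = 0 := by
      intro j
      have h := hcon j
      rw [map_sub, map_mul, map_pow, map_pow, eval_C] at h
      by_cases h2 : eval (vec D) (lin n p (2 * j.val + 1)) = 0
      · rw [h2] at h
        refine ⟨?_, h2⟩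
        have h3 : (eval (vec D) (lin n p (2 * j.val))) ^ 2 = 0 := by
          linear_combination h
        exact pow_eq_zero_iff (two_ne_zero) |>.mp h3
      · exfalso
        apply hν
        refine ⟨eval (vec D) (lin n p (2 * j.val)) / eval (vec D) (lin n p (2 * j.val + 1)), ?_⟩
        field_simp
        linear_combination -h
    have h2 : ∀ k, k ≤ e → eval (vec D) (lin n p k) = 0 := by
      intro k hk
      have h3 := h1 ⟨k / 2, by omega⟩
      simp only at h3
      rcases Nat.even_or_odd' k with ⟨r, hr | hr⟩
      · have : 2 * (k / 2) = k := by omega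
        rw [this] at h3
        exact h3.1
      · have : 2 * (k / 2) + 1 = k := by omega
        rw [this] at h3
        exact h3.2
    have h4 : ∀ k, k ≤ e → Finset.univ.filter (fun i : Fin n => i.val / (p - 1) = k) ⊆ D := by
      intro k hk
      refine lin_vec ?_ D (h2 k hk)
      exact (Nat.mul_le_mul_right _ (by omega)).trans hn
    have h5 : (e + 1) * (p - 1) ≤ D.card := by
      have h6 : (Finset.univ.filter (fun i : Fin n => i.val < (e + 1) * (p - 1))) ⊆ D := by
        intro i hi
        rw [Finset.mem_filter] at hi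
        have h7 : i.val / (p - 1) < e + 1 := by
          rw [Nat.div_lt_iff_lt_mul (by omega)]
          exact hi.2
        exact h4 (i.val / (p - 1)) (by omega) (by simp)
      refine le_trans (le_of_eq ?_) (Finset.card_le_card h6)
      have h8 : (Finset.univ.filter (fun i : Fin n => i.val < (e + 1) * (p - 1))).map
          Fin.valEmbedding = Finset.range ((e + 1) * (p - 1)) := by
        ext a
        simp only [Finset.mem_map, Finset.mem_filter, Finset.mem_univ, true_and,
          Fin.valEmbedding_apply, Finset.mem_range]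
        constructor
        · rintro ⟨i, hi, rfl⟩
          exact hi
        · intro ha
          exact ⟨⟨a, by omega⟩, ha, rfl⟩
      rw [← Finset.card_map Fin.valEmbedding, h8, Finset.card_range]
    rw [Nat.add_mul, Nat.one_mul] at h5
    omega

end Pool.Agent.Hhelper44.GrowK
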