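import Pool.Agent.Hhelper44.GrowK.Colour
import Pool.Agent.Hhelper44.GrowK.Cover

set_option autoImplicit false

/-!
The sets `S` of vectors `± 1_A` with few zeros: colouring and covers.
-/

namespace Pool.Agent.Hhelper44.GrowK

open MvPolynomial Finset

/-- The vectors `1_A` and `-1_A` with at most `m` zeros. -/
def gen (n p m : ℕ) : Set (Fin n → ZMod p) :=
  {s | ∃ D : Finset (Fin n), D.card ≤ m ∧ (s = vec D ∨ s = -vec D)}

theorem gen_neg {n p m : ℕ} : ∀ s ∈ gen n p m, -s ∈ gen n p m := by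
  rintro s ⟨D, hD, h | h⟩
  · exact ⟨D, hD, Or.inr (by rw [h])⟩
  · exact ⟨D, hD, Or.inl (by rw [h, neg_neg])⟩

theorem gen_zero {n p m : ℕ} [Fact p.Prime] (h : m < n) : (0 : Fin n → ZMod p) ∉ gen n p m := by
  rintro ⟨D, hD, h0⟩
  have h1 : (vec D : Fin n → ZMod p) = 0 := by
    rcases h0 with h0 | h0
    · exact h0.symm
    · rw [← neg_eq_zero, ← h0]
  have h2 : D = Finset.univ := by
    rw [Finset.eq_univ_iff_forall]
    intro i
    by_contra hi
    have h3 := congrFun h1 i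
    simp [vec, hi] at h3
  rw [h2, Finset.card_univ, Fintype.card_fin] at hD
  omega

theorem gen_col (p : ℕ) [Fact p.Prime] : ∃ q : ℕ, ∀ (m N : ℕ) [NeZero N], 16 * m ^ 2 < N →
    ∃ f : (Fin N → ZMod p) → Fin (q * N), ∀ x, ∀ s ∈ gen N p m, f x ≠ f (x + s) := by
  classical
  obtain ⟨q, hq⟩ := exists_col p
  refine ⟨q, fun m N _ hN => ?_⟩
  obtain ⟨f, hf⟩ := hq m N hN
  set φ := ZMod.finEquiv N with hφ
  have key : ∀ (x y : Fin N → ZMod p) (D : Finset (Fin N)), D.card ≤ m → y = x + vec D →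
      f (x ∘ φ.symm) ≠ f (y ∘ φ.symm) := by
    intro x y D hD hy
    refine hf _ _ (D.map φ.toEquiv.toEmbedding) (by rw [Finset.card_map]; exact hD) ?_ ?_
    · intro i hi
      rw [Finset.mem_map] at hi
      obtain ⟨a, ha, rfl⟩ := hi
      simp [hy, vec, ha]
    · intro i hi
      have h1 : φ.symm i ∉ D := by
        intro h
        apply hi
        rw [Finset.mem_map]
        exact ⟨_, h, by simp⟩
      simp [hy, vec, h1]
  refine ⟨fun x => f (x ∘ φ.symm), fun x s hs => ?_⟩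
  obtain ⟨D, hD, hs | hs⟩ := hs
  · exact key x (x + s) D hD (by rw [hs])
  · exact (key (x + s) x D hD (by rw [hs]; ring)).symm

theorem eval_neg_hom {n : ℕ} {R : Type*} [CommRing R] (P : MvPolynomial (Fin n) R)
    (hP : P.IsHomogeneous 2) (v : Fin n → R) : eval (-v) P = eval v P := by
  rw [eval_eq', eval_eq']
  refine Finset.sum_congr rfl fun d hd => ?_
  have h1 : ∑ i, d i = 2 := by
    have h2 := hP (mem_support_iff.mp hd)
    rw [Finsupp.weight_apply, Finsupp.sum_fintype _ _ (fun i => by simp)] at h2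
    simpa using h2
  have h3 : ∏ i, (-v) i ^ d i = ∏ i, ((-1) ^ d i * v i ^ d i) :=
    Finset.prod_congr rfl fun i _ => by rw [Pi.neg_apply, neg_pow]
  rw [h3, Finset.prod_mul_distrib, Finset.prod_pow_eq_pow_sum, h1]
  simp

theorem growth_main : ∀ p : ℕ, p.Prime → 3 ≤ p → ∃ c : ℕ, ∀ e : ℕ, 0 < e →
    ∃ (n : ℕ) (S : Set (Fin n → ZMod p)),
      (0 : Fin n → ZMod p) ∉ S ∧ (∀ s ∈ S, -s ∈ S) ∧
      (∃ f : (Fin n → ZMod p) → Fin (c * e ^ 2), ∀ x : Fin n → ZMod p, ∀ s ∈ S,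
        f x ≠ f (x + s)) ∧
      (∀ (K : ℕ) (P : Fin K → MvPolynomial (Fin n) (ZMod p)),
        (∀ j, eval (0 : Fin n → ZMod p) (P j) = 0) → ∑ j, (P j).totalDegree ≤ e →
        ∃ s ∈ S, ∀ j, eval s (P j) = 0) ∧
      (∀ K : ℕ, e < 2 * K → ∃ P : Fin K → MvPolynomial (Fin n) (ZMod p),
        (∀ j, (P j).IsHomogeneous 2) ∧ ∀ s ∈ S, ∃ j, eval s (P j) ≠ 0) := by
  intro p hp hp3
  have _ : Fact p.Prime := ⟨hp⟩
  obtain ⟨q, hq⟩ := gen_col p
  refine ⟨17 * q * (p - 1) ^ 2, fun e he => ?_⟩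
  set m := e * (p - 1) with hm
  have hm1 : p - 1 ≤ m := Nat.le_mul_of_pos_left _ he
  have hmm : m ≤ m ^ 2 := Nat.le_self_pow (by norm_num) m
  refine ⟨16 * m ^ 2 + 1, gen (16 * m ^ 2 + 1) p m, gen_zero (by omega), gen_neg, ?_, ?_, ?_⟩
  · obtain ⟨f, hf⟩ := hq m (16 * m ^ 2 + 1) (by omega)
    have hle : q * (16 * m ^ 2 + 1) ≤ 17 * q * (p - 1) ^ 2 * e ^ 2 := by
      have h1 : 16 * m ^ 2 + 1 ≤ 17 * m ^ 2 := by omega
      calc q * (16 * m ^ 2 + 1) ≤ q * (17 * m ^ 2) := Nat.mul_le_mul_left _ h1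
        _ = 17 * q * (p - 1) ^ 2 * e ^ 2 := by rw [hm]; ring
    refine ⟨fun x => Fin.castLE hle (f x), fun x s hs h => hf x s hs ?_⟩
    exact Fin.castLE_injective hle h
  · intro K P h0 hP
    obtain ⟨D, hD, hD'⟩ := exists_zero K m P (Nat.mul_le_mul_right _ hP) h0
    exact ⟨vec D, ⟨D, hD, Or.inl rfl⟩, hD'⟩
  · intro K hK
    obtain ⟨P, hP, hP'⟩ := exists_cover (n := 16 * m ^ 2 + 1) hp3 (by
      rw [Nat.add_mul, Nat.one_mul, ← hm]
      omega) hK
    refine ⟨P, hP, ?_⟩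
    rintro s ⟨D, hD, h | h⟩
    · obtain ⟨j, hj⟩ := hP' D hD
      exact ⟨j, by rw [h]; exact hj⟩
    · obtain ⟨j, hj⟩ := hP' D hD
      refine ⟨j, ?_⟩
      rw [h]
      have h1 : eval (-vec D) (P j) = eval (vec D) (P j) := by
        exact eval_neg_hom (P j) (hP j) (vec D)
      rw [h1]
      exact hj

end Pool.Agent.Hhelper44.GrowK
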